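import Pool.Agent.MP_d5eec5_gt.H77.GBasic

/-! Row INS: insertion of a full turn along the circle. -/

set_option autoImplicit false

namespace Pool.Agent.MP_d5eec5_gt.H77

open Pool.Agent.MP_d5eec5_gt.H48 Finset

theorem ins_gap (p : ℕ → ℚ) (n : ℕ) {u c : ℚ} (h : u < c) :
    ∃ u', u < u' ∧ u' < c ∧ ∀ k < n, p k ≤ u ∨ u' < p k := by
  induction n with
  | zero => exact ⟨(u + c) / 2, by linarith, by linarith, fun k hk => by omega⟩
  | succ n ih =>
    obtain ⟨t, h1, h2, h3⟩ := ih
    rcases le_or_gt (p n) u with e | e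
    · refine ⟨t, h1, h2, fun k hk => ?_⟩
      rcases Nat.lt_succ_iff_lt_or_eq.1 hk with hk | rfl
      · exact h3 k hk
      · exact Or.inl e
    · have a1 := min_le_left t (p n)
      have a2 := min_le_right t (p n)
      have a3 := lt_min h1 e
      refine ⟨(u + min t (p n)) / 2, by linarith, by linarith, fun k hk => ?_⟩
      rcases Nat.lt_succ_iff_lt_or_eq.1 hk with hk | rfl
      · exact (h3 k hk).imp id fun e' => by linarith
      · exact Or.inr (by linarith)

theorem ins_sub {a q r b : ℚ} (h : (a < r ∧ r < b ∧ b < q) ∨ (q < b ∧ b < r ∧ r < a)) (c d : ℚ) :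
    c1 a q c d + c1 r b c d ≤ c1 a b c d + c1 q r c d := by
  have A : ∀ y, btw a q y ↔ btw a b y ∨ btw q r y := fun y => by
    simp only [btw_iff]
    grind
  have B : ∀ y, btw r b y ↔ btw a b y ∧ btw q r y := fun y => by
    simp only [btw_iff]
    grind
  unfold c1
  simp only [A, B]
  by_cases h1 : btw a b c <;> by_cases h2 : btw q r c <;> by_cases h3 : btw a b d <;>
    by_cases h4 : btw q r d <;> simp [h1, h2, h3, h4]

theorem ins_zero {a q r b : ℚ} (h : (a < r ∧ r < b ∧ b < q) ∨ (q < b ∧ b < r ∧ r < a)) :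
    c1 a q r b = 0 := by
  unfold c1
  rw [if_pos]
  simp only [btw_iff]
  grind

/-- Insert the points `q`, `r` after the point `i`. -/
def ins_add (i : ℕ) (q r : ℚ) (p : ℕ → ℚ) : ℕ → ℚ := fun k =>
  if k ≤ i then p k else if k = i + 1 then q else if k = i + 2 then r else p (k - 2)

theorem ins_le {i k : ℕ} (q r : ℚ) (p : ℕ → ℚ) (h : k ≤ i) : ins_add i q r p k = p k := if_pos h

theorem ins_1 (i : ℕ) (q r : ℚ) (p : ℕ → ℚ) : ins_add i q r p (i + 1) = q := by simp [ins_add]

theorem ins_2 (i : ℕ) (q r : ℚ) (p : ℕ → ℚ) : ins_add i q r p (i + 2) = r := by simp [ins_add]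

theorem ins_gt {i k : ℕ} (q r : ℚ) (p : ℕ → ℚ) (h : i < k) : ins_add i q r p (k + 2) = p k := by
  unfold ins_add
  rw [if_neg (by omega), if_neg (by omega), if_neg (by omega), Nat.add_sub_cancel]

theorem ins_drop (i : ℕ) (q r : ℚ) (p : ℕ → ℚ) : drop2 i (ins_add i q r p) = p := by
  funext k
  unfold drop2
  split_ifs with h
  · exact ins_le q r p h
  · exact ins_gt q r p (by omega)

theorem ins_cases (i k : ℕ) : k ≤ i ∨ k = i + 1 ∨ k = i + 2 ∨ ∃ l, i < l ∧ k = l + 2 := by
  by_cases h : i + 2 < k
  · exact Or.inr (Or.inr (Or.inr ⟨k - 2, by omega, by omega⟩))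
  · omega

theorem ins_fit {τ η : Fin 3} {w : Wd} {p : ℕ → ℚ} (F : Fit τ η w p) {i : ℕ} (hi : i ≤ w.length)
    {y x : Fin 3} {q r : ℚ} (hq : (y.val : ℚ) < q ∧ q < (y.val : ℚ) + 1)
    (hr : (x.val : ℚ) < r ∧ r < (x.val : ℚ) + 1) (ne : q ≠ r)
    (nq : ∀ k ≤ w.length + 1, p k ≠ q) (nr : ∀ k ≤ w.length + 1, p k ≠ r) :
    Fit τ η (w.take i ++ [y, x] ++ w.drop i) (ins_add i q r p) := by
  have hl : (w.take i ++ [y, x] ++ w.drop i).length = w.length + 2 := by
    simp only [List.length_append, List.length_take, List.length_drop, List.length_cons,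
      List.length_nil]
    omega
  have ht : (w.take i).length = i := by simp [hi]
  refine ⟨(ins_le q r p (Nat.zero_le _)).trans F.h0, ?_, fun j z hj => ?_, ?_⟩
  · rw [hl, show w.length + 2 + 1 = w.length + 1 + 2 by omega, ins_gt q r p (by omega), F.h1]
  · rw [List.append_assoc] at hj
    rcases ins_cases i (j + 1) with h | h | h | ⟨l, h1, h2⟩
    · rw [List.getElem?_append_left (by omega), List.getElem?_take_of_lt (by omega)] at hj
      rw [ins_le q r p h]
      exact F.mem j z hj
    · rw [List.getElem?_append_right (by omega), ht, show j - i = 0 by omega] at hj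
      rw [h, ins_1]
      obtain rfl : y = z := by simpa using hj
      exact hq
    · rw [List.getElem?_append_right (by omega), ht, show j - i = 1 by omega] at hj
      rw [h, ins_2]
      obtain rfl : x = z := by simpa using hj
      exact hr
    · obtain ⟨t, rfl⟩ : ∃ t, l = i + t + 1 := ⟨l - i - 1, by omega⟩
      rw [List.getElem?_append_right (by omega), ht, show j - i = t + 1 + 1 by omega] at hj
      rw [h2, ins_gt q r p h1]
      exact F.mem (i + t) z (by simpa using hj)
  · rw [hl]
    intro a ha b hb e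
    have ha' : a ≤ w.length + 2 + 1 := ha
    have hb' : b ≤ w.length + 2 + 1 := hb
    rcases ins_cases i a with h | rfl | rfl | ⟨l, h1, rfl⟩ <;>
      rcases ins_cases i b with h' | h' | h' | ⟨l', h1', h'⟩
    all_goals try subst h'
    all_goals try rw [ins_le q r p h] at e
    all_goals try rw [ins_le q r p h'] at e
    all_goals try rw [ins_gt q r p h1] at e
    all_goals try rw [ins_gt q r p h1'] at e
    all_goals try rw [ins_1] at e
    all_goals try rw [ins_2] at e
    all_goals first
      | rfl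
      | exact absurd e ne
      | exact absurd e.symm ne
      | exact absurd e (nq _ (by omega))
      | exact absurd e (nr _ (by omega))
      | exact absurd e.symm (nq _ (by omega))
      | exact absurd e.symm (nr _ (by omega))
      | (have := F.inj (Set.mem_Iic.2 (by omega)) (Set.mem_Iic.2 (by omega)) e; omega)

theorem ins_main (hS : StmtSplit2) {τ η : Fin 3} {w : Wd} {p : ℕ → ℚ} (F : Fit τ η w p) {i : ℕ}
    (hi : i ≤ w.length) {u v u' v' q r : ℚ} {y x : Fin 3}
    (hq : (y.val : ℚ) < q ∧ q < (y.val : ℚ) + 1) (hr : (x.val : ℚ) < r ∧ r < (x.val : ℚ) + 1)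
    (iq : ins u' v' q) (ir : ins u' v' r)
    (e1 : ∀ k ≤ w.length + 1, ins u' v' (p k) ↔ ins u v (p k))
    (e2 : ∀ k ≤ w.length + 1, btw q r (p k) ↔ ¬ ins u v (p k))
    (nq : ∀ k ≤ w.length + 1, p k ≠ q) (nr : ∀ k ≤ w.length + 1, p k ≠ r)
    (ha : ins u v (p i)) (hb : ¬ ins u v (p (i + 1)))
    (o : (p i < r ∧ r < p (i + 1) ∧ p (i + 1) < q) ∨ (q < p (i + 1) ∧ p (i + 1) < r ∧ r < p i)) :
    Fit τ η (w.take i ++ [y, x] ++ w.drop i) (ins_add i q r p) ∧
      X (w.length + 2) (ins_add i q r p) + 1 ≤ X w.length p + kap u v w.length p ∧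
      kap u' v' (w.length + 2) (ins_add i q r p) = kap u v w.length p ∧
      ins u' v' (ins_add i q r p (i + 2)) ∧ ¬ ins u' v' (ins_add i q r p (i + 3)) := by
  have ne : q ≠ r := by
    rintro rfl
    rcases o with o | o <;> linarith [o.2.1, o.2.2, o.1]
  have F' := ins_fit F hi hq hr ne nq nr
  have hl : (w.take i ++ [y, x] ++ w.drop i).length = w.length + 2 := by
    simp only [List.length_append, List.length_take, List.length_drop, List.length_cons,
      List.length_nil]
    omega
  have e3 : ins_add i q r p (i + 3) = p (i + 1) := ins_gt q r p (Nat.lt_succ_self i)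
  refine ⟨F', ?_, ?_, by rwa [ins_2], by rwa [e3, e1 _ (by omega)]⟩
  · have inj := F'.inj
    rw [hl] at inj
    have H := hS w.length i _ inj hi
    rw [ins_drop, ins_le q r p le_rfl, ins_1, ins_2, e3, ins_zero o] at H
    have K : kap u v w.length p = 1 + ∑ k ∈ (range (w.length + 1)).erase i,
        c1 q r (p k) (p (k + 1)) := by
      unfold kap
      rw [card_filter, ← add_sum_erase _ _ (mem_range.2 (Nat.lt_succ_of_le hi)),
        if_pos (fun h => hb (h.1 ha))]
      refine congrArg _ (sum_congr rfl fun k hk => ?_)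
      have := mem_range.1 (mem_of_mem_erase hk)
      unfold c1
      simp only [e2 k (by omega), e2 (k + 1) (by omega), not_iff_not, ite_not]
    have L : (∑ k ∈ (range (w.length + 1)).erase i, if k % 2 = i % 2 then
          c1 (p i) q (p k) (p (k + 1)) + c1 r (p (i + 1)) (p k) (p (k + 1))
          else c1 q r (p k) (p (k + 1))) ≤
        (∑ k ∈ (range (w.length + 1)).erase i,
          if k % 2 = i % 2 then c1 (p i) (p (i + 1)) (p k) (p (k + 1)) else 0) +
          ∑ k ∈ (range (w.length + 1)).erase i, c1 q r (p k) (p (k + 1)) := by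
      rw [← sum_add_distrib]
      refine sum_le_sum fun k _ => ?_
      split_ifs
      · exact ins_sub o _ _
      · omega
    omega
  · obtain ⟨t, ht⟩ : ∃ t, w.length = i + t := ⟨w.length - i, by omega⟩
    unfold kap
    rw [card_filter, card_filter, ht, show i + t + 2 + 1 = i + (t + 1 + 1 + 1) by omega,
      show i + t + 1 = i + (t + 1) by omega, sum_range_add _ i (t + 1 + 1 + 1),
      sum_range_add _ i (t + 1), sum_range_succ', sum_range_succ', sum_range_succ',
      sum_range_succ']
    refine congrArg₂ _ (sum_congr rfl fun k hk => ?_) ?_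
    · have := mem_range.1 hk
      simp only [ins_le q r p (show k ≤ i by omega), ins_le q r p (show k + 1 ≤ i by omega),
        e1 k (by omega), e1 (k + 1) (by omega)]
    · have s : ∀ k ∈ range t,
          (if ¬ (ins u' v' (ins_add i q r p (i + (k + 1 + 1 + 1))) ↔
            ins u' v' (ins_add i q r p (i + (k + 1 + 1 + 1) + 1))) then 1 else 0) =
          if ¬ (ins u v (p (i + (k + 1))) ↔ ins u v (p (i + (k + 1) + 1))) then 1 else 0 := by
        intro k hk
        have := mem_range.1 hk
        rw [show i + (k + 1 + 1 + 1) + 1 = i + (k + 1) + 1 + 2 by omega,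
          show i + (k + 1 + 1 + 1) = i + (k + 1) + 2 by omega, ins_gt q r p (by omega),
          ins_gt q r p (by omega)]
        simp only [e1 (i + (k + 1)) (by omega), e1 (i + (k + 1) + 1) (by omega)]
      rw [sum_congr rfl s]
      have ha' := (e1 i (by omega)).2 ha
      have hb' := (e1 (i + 1) (by omega)).not.2 hb
      have e2' : ins_add i q r p (i + 1 + 1) = r := ins_2 i q r p
      have e3' : ins_add i q r p (i + 2 + 1) = p (i + 1) := e3
      simp [ins_le q r p le_rfl, ins_1, ins_2, e2', e3', ha, hb, ha', hb', iq, ir]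

theorem ins_of : StmtSplit2 → StmtIns := by
  intro hS τ η w p u v i x F T hx ha hb
  have hi : i < w.length := (List.getElem?_eq_some_iff.1 hx).1
  have x1 := F.ins_letter T hx ha
  have m := F.mem i x hx
  obtain ⟨t1, t2, t3, t4⟩ := T
  obtain ⟨u', u1, u2, u3⟩ := ins_gap p (w.length + 2) t2
  obtain ⟨s, s1, s2, s3⟩ := ins_gap (fun k => -p k) (w.length + 2) (neg_lt_neg t3)
  obtain ⟨v', rfl⟩ : ∃ v', s = -v' := ⟨-s, (neg_neg s).symm⟩
  have v1 : v' < v := neg_lt_neg_iff.1 s1
  have v2 : 2 < v' := neg_lt_neg_iff.1 s2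
  have g : ∀ k ≤ w.length + 1, (p k ≤ u ∨ u' < p k) ∧ (v ≤ p k ∨ p k < v') := fun k hk =>
    ⟨u3 k (by omega), (s3 k (by omega)).imp neg_le_neg_iff.1 neg_lt_neg_iff.1⟩
  have e1 : ∀ k ≤ w.length + 1, ins u' v' (p k) ↔ ins u v (p k) := fun k hk => by
    have := g k hk
    unfold ins
    grind
  have e2 : ∀ k ≤ w.length + 1, btw u' v' (p k) ↔ ¬ ins u v (p k) := fun k hk => by
    have := g k hk
    rw [btw_iff]
    unfold ins
    grind
  have nu : ∀ k ≤ w.length + 1, p k ≠ u' := fun k hk => by
    have := g k hk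
    grind
  have nv : ∀ k ≤ w.length + 1, p k ≠ v' := fun k hk => by
    have := g k hk
    grind
  have gb := g (i + 2) (by omega)
  have T' : Thr u' v' := ⟨by linarith, u2, v2, by linarith⟩
  have iu : ins u' v' u' := Or.inl le_rfl
  have iv : ins u' v' v' := Or.inr le_rfl
  have ha' := ha
  have hb' := hb
  unfold ins at ha' hb'
  have hx : x = 0 ∨ x = 2 := by
    revert x1
    fin_cases x <;> simp
  rcases hx with rfl | rfl
  · simp only [Fin.val_zero, Nat.cast_zero, zero_add] at m
    refine ⟨_, u', v', T', ins_main hS F hi (y := 2 - 0) (x := 0) (q := v') (r := u') ?_ ?_ iv iu e1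
      (fun k hk => (btw_comm _ _ _).trans (e2 k hk)) nv nu ha hb (Or.inl (by grind))⟩
    · simp only [sub_zero, Fin.val_two, Nat.cast_ofNat]
      constructor <;> linarith
    · simp only [Fin.val_zero, Nat.cast_zero, zero_add]
      constructor <;> linarith
  · simp only [Fin.val_two, Nat.cast_ofNat] at m
    refine ⟨_, u', v', T', ins_main hS F hi (y := 2 - 2) (x := 2) (q := u') (r := v') ?_ ?_ iu iv e1
      e2 nu nv ha hb (Or.inr (by grind))⟩
    · simp only [sub_self, Fin.val_zero, Nat.cast_zero, zero_add]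
      constructor <;> linarith
    · simp only [Fin.val_two, Nat.cast_ofNat]
      constructor <;> linarith

end Pool.Agent.MP_d5eec5_gt.H77
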